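import Pool.Agent.R872.SEC.Stm

/-!
# SEC, piece MOL: mollification of a bounded field (MP_d56274_gt)
-/

open MeasureTheory Set Filter Topology
open scoped ENNReal Convolution

namespace Pool.R872.SEC

namespace MOLP

/-- the mollification -/
noncomputable def cv (φ : ContDiffBump (0 : ℝ × ℝ)) (F : ℝ × ℝ → ℝ) (x : ℝ × ℝ) : ℝ :=
  ∫ t, φ.normed volume t * F (x - t)

theorem cv_eq (φ : ContDiffBump (0 : ℝ × ℝ)) (F : ℝ × ℝ → ℝ) :
    cv φ F = (φ.normed volume ⋆[ContinuousLinearMap.lsmul ℝ ℝ, volume] F) := rfl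

theorem integrable_cv (φ : ContDiffBump (0 : ℝ × ℝ)) {F : ℝ × ℝ → ℝ} {C : ℝ} (hF : Measurable F)
    (hC : ∀ x, |F x| ≤ C) (x : ℝ × ℝ) :
    Integrable (fun t => φ.normed volume t * F (x - t)) := by
  refine φ.integrable_normed.mul_bdd (c := C) ?_ ?_
  · exact (hF.comp (measurable_const.sub measurable_id)).aestronglyMeasurable
  · exact ae_of_all _ fun t => by
      rw [Real.norm_eq_abs]
      exact hC _

theorem abs_cv_le (φ : ContDiffBump (0 : ℝ × ℝ)) {F : ℝ × ℝ → ℝ} {C : ℝ}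
    (hC : ∀ x, |F x| ≤ C) (x : ℝ × ℝ) : |cv φ F x| ≤ C := by
  have h1 : |cv φ F x| ≤ ∫ t, φ.normed volume t * C := by
    unfold cv
    rw [← Real.norm_eq_abs]
    apply norm_integral_le_of_norm_le (φ.integrable_normed.mul_const C)
    refine ae_of_all _ fun t => ?_
    rw [norm_mul, Real.norm_of_nonneg (φ.nonneg_normed t), Real.norm_eq_abs]
    exact mul_le_mul_of_nonneg_left (hC _) (φ.nonneg_normed t)
  rwa [integral_mul_const, φ.integral_normed, one_mul] at h1

theorem locInt {F : ℝ × ℝ → ℝ} {C : ℝ} (hF : Measurable F) (hC : ∀ x, |F x| ≤ C) :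
    LocallyIntegrable F := by
  refine (locallyIntegrable_const C).mono hF.aestronglyMeasurable (ae_of_all _ fun x => ?_)
  rw [Real.norm_eq_abs, Real.norm_eq_abs]
  exact (hC x).trans (le_abs_self C)

theorem contDiff_cv (φ : ContDiffBump (0 : ℝ × ℝ)) {F : ℝ × ℝ → ℝ} {C : ℝ} (hF : Measurable F)
    (hC : ∀ x, |F x| ≤ C) : ContDiff ℝ 1 (cv φ F) := by
  rw [cv_eq]
  exact φ.hasCompactSupport_normed.contDiff_convolution_left _ φ.contDiff_normed (locInt hF hC)

theorem cv_zero (φ : ContDiffBump (0 : ℝ × ℝ)) {F : ℝ × ℝ → ℝ} {a b a' b' : ℝ}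
    (h : ∀ x : ℝ × ℝ, ¬ (a ≤ x.1 ∧ x.1 ≤ b ∧ a' ≤ x.2 ∧ x.2 ≤ b') → F x = 0) (x : ℝ × ℝ)
    (hx : ¬ (a - φ.rOut ≤ x.1 ∧ x.1 ≤ b + φ.rOut ∧ a' - φ.rOut ≤ x.2 ∧ x.2 ≤ b' + φ.rOut)) :
    cv φ F x = 0 := by
  have h0 : ∀ t : ℝ × ℝ, φ.normed volume t * F (x - t) = 0 := by
    intro t
    by_cases ht : φ.normed volume t = 0
    · rw [ht, zero_mul]
    · have h1 : t ∈ Metric.ball (0 : ℝ × ℝ) φ.rOut := by
        rw [← φ.support_normed_eq (μ := volume)]
        exact ht
      rw [mem_ball_zero_iff, Prod.norm_def, max_lt_iff, Real.norm_eq_abs, Real.norm_eq_abs,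
        abs_lt, abs_lt] at h1
      obtain ⟨⟨h11, h12⟩, h13, h14⟩ := h1
      rw [h (x - t), mul_zero]
      rintro ⟨h2, h3, h4, h5⟩
      rw [Prod.fst_sub] at h2 h3
      rw [Prod.snd_sub] at h4 h5
      exact hx ⟨by linarith, by linarith, by linarith, by linarith⟩
  unfold cv
  simp_rw [h0, integral_zero]

theorem norm_cv (φ : ContDiffBump (0 : ℝ × ℝ)) {F1 F2 : ℝ × ℝ → ℝ} (h1 : Measurable F1)
    (h2 : Measurable F2) (hb : ∀ x, F1 x ^ 2 + F2 x ^ 2 ≤ 1) (x : ℝ × ℝ) :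
    cv φ F1 x ^ 2 + cv φ F2 x ^ 2 ≤ 1 := by
  have hb1 : ∀ x, |F1 x| ≤ 1 := fun x => by
    rw [abs_le_one_iff_mul_self_le_one]
    nlinarith [hb x, sq_nonneg (F2 x)]
  have hb2 : ∀ x, |F2 x| ≤ 1 := fun x => by
    rw [abs_le_one_iff_mul_self_le_one]
    nlinarith [hb x, sq_nonneg (F1 x)]
  obtain ⟨A, hA⟩ : ∃ A, A = cv φ F1 x := ⟨_, rfl⟩
  obtain ⟨B, hB⟩ : ∃ B, B = cv φ F2 x := ⟨_, rfl⟩
  rw [← hA, ← hB]
  obtain ⟨n, hn⟩ : ∃ n, n = Real.sqrt (A ^ 2 + B ^ 2) := ⟨_, rfl⟩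
  have hn0 : 0 ≤ n := by
    rw [hn]
    exact Real.sqrt_nonneg _
  have hn2 : n ^ 2 = A ^ 2 + B ^ 2 := by
    rw [hn]
    exact Real.sq_sqrt (by positivity)
  have i1 := (integrable_cv φ h1 hb1 x).const_mul A
  have i2 := (integrable_cv φ h2 hb2 x).const_mul B
  have h3 : A ^ 2 + B ^ 2 = ∫ t, (A * (φ.normed volume t * F1 (x - t)) +
      B * (φ.normed volume t * F2 (x - t))) := by
    rw [integral_add i1 i2, integral_const_mul, integral_const_mul]
    have e1 : ∫ t, φ.normed volume t * F1 (x - t) = A := hA.symm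
    have e2 : ∫ t, φ.normed volume t * F2 (x - t) = B := hB.symm
    rw [e1, e2]
    ring
  have h4 : ∫ t, (A * (φ.normed volume t * F1 (x - t)) +
      B * (φ.normed volume t * F2 (x - t))) ≤ ∫ t, φ.normed volume t * n := by
    apply integral_mono (i1.add i2) (φ.integrable_normed.mul_const n)
    intro t
    show A * (φ.normed volume t * F1 (x - t)) + B * (φ.normed volume t * F2 (x - t)) ≤
      φ.normed volume t * n
    have h5 : A * F1 (x - t) + B * F2 (x - t) ≤ n := by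
      refine (abs_le_of_sq_le_sq' ?_ hn0).2
      have h6 := hb (x - t)
      rw [hn2]
      nlinarith [sq_nonneg (A * F2 (x - t) - B * F1 (x - t)), sq_nonneg A, sq_nonneg B,
        mul_nonneg (add_nonneg (sq_nonneg A) (sq_nonneg B)) (sub_nonneg.2 h6)]
    have h7 := mul_le_mul_of_nonneg_left h5 (φ.nonneg_normed t (μ := volume))
    linarith
  rw [integral_mul_const, φ.integral_normed, one_mul, ← h3, ← hn2] at h4
  rw [← hn2]
  have h5 : n ≤ 1 := by
    by_contra h6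
    rw [not_le] at h6
    nlinarith
  nlinarith

theorem cv_shift (φ : ContDiffBump (0 : ℝ × ℝ)) {F G : ℝ × ℝ → ℝ} {C C' : ℝ} (hF : Measurable F)
    (hFC : ∀ x, |F x| ≤ C) (hG : Measurable G) (hGC : ∀ x, |G x| ≤ C') (e : ℝ × ℝ)
    (h : ∀ (x : ℝ × ℝ) (s : ℝ), F (x + s • e) - F x = ∫ u in (0 : ℝ)..s, G (x + u • e))
    (x : ℝ × ℝ) (s : ℝ) :
    cv φ F (x + s • e) - cv φ F x = ∫ u in (0 : ℝ)..s, cv φ G (x + u • e) := by
  unfold cv
  rw [intervalIntegral_integral_swap]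
  · rw [← integral_sub (integrable_cv φ hF hFC _) (integrable_cv φ hF hFC _)]
    congr 1
    funext t
    have e1 : x + s • e - t = (x - t) + s • e := by abel
    rw [← mul_sub, e1, h, ← intervalIntegral.integral_const_mul]
    congr 1
    funext u
    have e2 : x + u • e - t = (x - t) + u • e := by abel
    rw [e2]
  · have : IsFiniteMeasure (volume.restrict (uIoc 0 s)) := ⟨by
      rw [Measure.restrict_apply_univ, uIoc]
      exact measure_Ioc_lt_top⟩
    have h1 : Integrable (fun p : ℝ × (ℝ × ℝ) => φ.normed volume p.2)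
        ((volume.restrict (uIoc 0 s)).prod volume) :=
      (φ.integrable_normed (μ := volume)).comp_snd _
    refine h1.mul_bdd (c := C') ?_ ?_
    · refine (hG.comp ?_).aestronglyMeasurable
      fun_prop
    · exact ae_of_all _ fun t => by
        rw [Real.norm_eq_abs]
        exact hGC _

theorem hasDerivAt_cv (φ : ContDiffBump (0 : ℝ × ℝ)) {F G : ℝ × ℝ → ℝ} {C C' : ℝ}
    (hF : Measurable F)
    (hFC : ∀ x, |F x| ≤ C) (hG : Measurable G) (hGC : ∀ x, |G x| ≤ C') (e : ℝ × ℝ)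
    (h : ∀ (x : ℝ × ℝ) (s : ℝ), F (x + s • e) - F x = ∫ u in (0 : ℝ)..s, G (x + u • e))
    (x : ℝ × ℝ) : HasDerivAt (fun s : ℝ => cv φ F (x + s • e)) (cv φ G x) 0 := by
  have hc : Continuous fun u : ℝ => cv φ G (x + u • e) :=
    (contDiff_cv φ hG hGC).continuous.comp (by fun_prop)
  have h1 := intervalIntegral.integral_hasDerivAt_right (hc.intervalIntegrable 0 0)
    hc.aestronglyMeasurable.stronglyMeasurableAtFilter hc.continuousAt
  have h2 : (fun s : ℝ => cv φ F (x + s • e)) =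
      fun s => cv φ F x + ∫ u in (0 : ℝ)..s, cv φ G (x + u • e) := by
    funext s
    rw [← cv_shift φ hF hFC hG hGC e h x s]
    ring
  rw [h2]
  have h3 := h1.const_add (cv φ F x)
  rwa [zero_smul, add_zero] at h3

theorem ii {G : ℝ → ℝ} {C : ℝ} (hG : Measurable G) (hC : ∀ x, |G x| ≤ C) (a b : ℝ) :
    IntervalIntegrable G volume a b := by
  refine (intervalIntegrable_const (c := C) (μ := volume) (a := a) (b := b)).mono_fun'
    hG.aestronglyMeasurable (ae_of_all _ fun x => ?_)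
  show ‖G x‖ ≤ C
  rw [Real.norm_eq_abs]
  exact hC x

theorem shift1 {f G : ℝ → ℝ} {C : ℝ} (hG : Measurable G) (hC : ∀ x, |G x| ≤ C)
    (h : ∀ r, f r = ∫ s in (0 : ℝ)..r, G s) (r s : ℝ) :
    f (r + s) - f r = ∫ u in (0 : ℝ)..s, G (r + u) := by
  rw [h, h, intervalIntegral.integral_interval_sub_left (ii hG hC _ _) (ii hG hC _ _),
    intervalIntegral.integral_comp_add_left, add_zero]

end MOLP

open MOLP in
theorem MOL : S_MOL := by
  intro θ₀ p hθ hp R hR hRs P hP hper F1 F2 G1 G2 c d κ C hc hcd hκ hκθ hF1 hF2 hG1 hG2 hC1 hC2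
    hnorm hzero hI1 hI2
  have hC0 : 0 ≤ C := (abs_nonneg _).trans (hC1 0)
  have hb1 : ∀ x, |F1 x| ≤ 1 := fun x => by
    rw [abs_le_one_iff_mul_self_le_one]
    nlinarith [hnorm x, sq_nonneg (F2 x)]
  have hb2 : ∀ x, |F2 x| ≤ 1 := fun x => by
    rw [abs_le_one_iff_mul_self_le_one]
    nlinarith [hnorm x, sq_nonneg (F1 x)]
  have hs1 : ∀ (x : ℝ × ℝ) (s : ℝ), F1 (x + s • ((1, 0) : ℝ × ℝ)) - F1 x =
      ∫ u in (0 : ℝ)..s, G1 (x + u • ((1, 0) : ℝ × ℝ)) := by
    rintro ⟨r, θ⟩ s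
    have h1 := shift1 (f := fun r => F1 (r, θ)) (G := fun s => G1 (s, θ))
      (hG1.comp (measurable_id.prodMk measurable_const)) (fun s => hC1 (s, θ)) (fun r => hI1 r θ) r s
    simpa using h1
  have hs2 : ∀ (x : ℝ × ℝ) (s : ℝ), F2 (x + s • ((0, 1) : ℝ × ℝ)) - F2 x =
      ∫ u in (0 : ℝ)..s, G2 (x + u • ((0, 1) : ℝ × ℝ)) := by
    rintro ⟨r, θ⟩ s
    have h1 := shift1 (f := fun θ => F2 (r, θ)) (G := fun s => G2 (r, s))
      (hG2.comp (measurable_const.prodMk measurable_id)) (fun s => hC2 (r, s)) (fun θ => hI2 r θ) θ s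
    simpa using h1
  obtain ⟨m, hm⟩ : ∃ m, m = min c κ := ⟨_, rfl⟩
  have hm0 : 0 < m := by
    rw [hm]
    exact lt_min hc hκ
  have hmc : m ≤ c := by
    rw [hm]
    exact min_le_left _ _
  have hmκ : m ≤ κ := by
    rw [hm]
    exact min_le_right _ _
  let φ : ℕ → ContDiffBump (0 : ℝ × ℝ) := fun n =>
    { rIn := m / (2 * ((n : ℝ) + 2))
      rOut := m / ((n : ℝ) + 2)
      rIn_pos := by positivity
      rIn_lt_rOut := by
        apply div_lt_div_of_pos_left hm0 (by positivity)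
        have : (0 : ℝ) ≤ n := Nat.cast_nonneg n
        linarith }
  have hφout : ∀ n, (φ n).rOut = m / ((n : ℝ) + 2) := fun n => rfl
  have hφin : ∀ n, (φ n).rIn = m / (2 * ((n : ℝ) + 2)) := fun n => rfl
  have hφm : ∀ n, (φ n).rOut < m := by
    intro n
    rw [hφout, div_lt_iff₀ (by positivity)]
    have : (0 : ℝ) ≤ n := Nat.cast_nonneg n
    nlinarith
  have hφpos : ∀ n, 0 < (φ n).rOut := fun n => (φ n).rOut_pos
  have hφt : Tendsto (fun n => (φ n).rOut) atTop (𝓝 0) := by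
    simp_rw [hφout]
    apply Tendsto.div_atTop tendsto_const_nhds
    exact tendsto_atTop_add_const_right _ _ tendsto_natCast_atTop_atTop
  have hφK : ∀ᶠ n in atTop, (φ n).rOut ≤ 2 * (φ n).rIn := by
    refine Eventually.of_forall fun n => le_of_eq ?_
    rw [hφout, hφin]
    have : (0 : ℝ) ≤ n := Nat.cast_nonneg n
    field_simp
  -- zero outside the boxes
  have hz : ∀ n x, ¬ (c - (φ n).rOut ≤ x.1 ∧ x.1 ≤ d + (φ n).rOut ∧ κ - (φ n).rOut ≤ x.2 ∧
      x.2 ≤ θ₀ - κ + (φ n).rOut) → cv (φ n) F1 x = 0 ∧ cv (φ n) F2 x = 0 ∧ cv (φ n) G1 x = 0 ∧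
        cv (φ n) G2 x = 0 := fun n x hx =>
    ⟨cv_zero (φ n) (fun y hy => (hzero y hy).1) x hx,
      cv_zero (φ n) (fun y hy => (hzero y hy).2.1) x hx,
      cv_zero (φ n) (fun y hy => (hzero y hy).2.2.1) x hx,
      cv_zero (φ n) (fun y hy => (hzero y hy).2.2.2) x hx⟩
  let K : ℕ → Set (ℝ × ℝ) := fun n => Icc (c - (φ n).rOut) (d + (φ n).rOut) ×ˢ
    Icc (κ - (φ n).rOut) (θ₀ - κ + (φ n).rOut)
  have hKc : ∀ n, IsCompact (K n) := fun n => isCompact_Icc.prod isCompact_Icc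
  have hKs : ∀ n, K n ⊆ sector θ₀ := by
    rintro n x ⟨⟨h1, h2⟩, h3, h4⟩
    have := hφm n
    exact ⟨by linarith, by linarith, by linarith⟩
  have hK1 : ∀ n x, x ∉ K n → cv (φ n) F1 x = 0 ∧ cv (φ n) F2 x = 0 ∧ cv (φ n) G1 x = 0 ∧
        cv (φ n) G2 x = 0 := fun n x hx => hz n x fun h => hx ⟨⟨h.1, h.2.1⟩, h.2.2.1, h.2.2.2⟩
  have htest : ∀ n, IsTest θ₀ (cv (φ n) F1) (cv (φ n) F2) := by
    intro n
    have hts : ∀ f : ℝ × ℝ → ℝ, (∀ x, x ∉ K n → f x = 0) → tsupport f ⊆ sector θ₀ := by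
      intro f hf
      refine (closure_minimal ?_ (hKc n).isClosed).trans (hKs n)
      intro x hx
      by_contra hxK
      exact hx (hf x hxK)
    exact
      { a_diff := contDiff_cv _ hF1 hb1
        b_diff := contDiff_cv _ hF2 hb2
        a_cpt := HasCompactSupport.intro (hKc n) fun x hx => (hK1 n x hx).1
        b_cpt := HasCompactSupport.intro (hKc n) fun x hx => (hK1 n x hx).2.1
        a_supp := hts _ fun x hx => (hK1 n x hx).1
        b_supp := hts _ fun x hx => (hK1 n x hx).2.1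
        norm_le := norm_cv _ hF1 hF2 hnorm }
  let I : ℕ → ℝ × ℝ → ℝ := fun n x => (p + 1) * x.1 ^ p * cv (φ n) F1 x +
    x.1 ^ (p + 1) * cv (φ n) G1 x + x.1 ^ p * cv (φ n) G2 x
  have hflux : ∀ n, flux p (cv (φ n) F1) (cv (φ n) F2) R = ∫ x in R, I n x := by
    intro n
    unfold flux
    apply setIntegral_congr_fun hR
    intro x hx
    have hx0 : 0 < x.1 := (hRs hx).1
    have d1 : HasDerivAt (fun r => cv (φ n) F1 (r, x.2)) (cv (φ n) G1 x) x.1 := by
      have h1 := hasDerivAt_cv (φ n) hF1 hb1 hG1 hC1 (1, 0) hs1 x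
      have h2 : HasDerivAt (fun r => cv (φ n) F1 (x + (r - x.1) • ((1, 0) : ℝ × ℝ)))
          (cv (φ n) G1 x) x.1 := by
        apply HasDerivAt.comp_sub_const (f := fun s : ℝ => cv (φ n) F1 (x + s • ((1, 0) : ℝ × ℝ)))
        rw [sub_self]
        exact h1
      convert h2 using 3 with r
      ext <;> simp
    have d2 : HasDerivAt (fun θ => cv (φ n) F2 (x.1, θ)) (cv (φ n) G2 x) x.2 := by
      have h1 := hasDerivAt_cv (φ n) hF2 hb2 hG2 hC2 (0, 1) hs2 x
      have h2 : HasDerivAt (fun r => cv (φ n) F2 (x + (r - x.2) • ((0, 1) : ℝ × ℝ)))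
          (cv (φ n) G2 x) x.2 := by
        apply HasDerivAt.comp_sub_const (f := fun s : ℝ => cv (φ n) F2 (x + s • ((0, 1) : ℝ × ℝ)))
        rw [sub_self]
        exact h1
      convert h2 using 3 with r
      ext <;> simp
    have d3 := (Real.hasDerivAt_rpow_const (p := p + 1) (Or.inl hx0.ne')).mul d1
    have d4 := d2.const_mul (x.1 ^ p)
    show deriv (fun r => r ^ (p + 1) * cv (φ n) F1 (r, x.2)) x.1 +
      deriv (fun θ => x.1 ^ p * cv (φ n) F2 (x.1, θ)) x.2 = I n x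
    rw [d4.deriv]
    have e3 : deriv (fun r => r ^ (p + 1) * cv (φ n) F1 (r, x.2)) x.1 =
        (p + 1) * x.1 ^ (p + 1 - 1) * cv (φ n) F1 (x.1, x.2) + x.1 ^ (p + 1) * cv (φ n) G1 x :=
      d3.deriv
    rw [e3, add_sub_cancel_right]
  have hle : ∀ n, ∫ x in R, I n x ≤ P := by
    intro n
    rw [← hflux n, ← ENNReal.ofReal_le_ofReal_iff hP]
    refine le_trans ?_ hper
    unfold perimeter
    exact le_iSup_of_le (cv (φ n) F1) (le_iSup_of_le (cv (φ n) F2) (le_iSup_of_le (htest n) le_rfl))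
  have hlim : Tendsto (fun n => ∫ x in R, I n x) atTop (𝓝 (∫ x in R,
      ((p + 1) * x.1 ^ p * F1 x + x.1 ^ (p + 1) * G1 x + x.1 ^ p * G2 x))) := by
    obtain ⟨D, hD⟩ : ∃ D, D = d + m := ⟨_, rfl⟩
    have hD0 : 0 < D := by
      rw [hD]
      linarith
    obtain ⟨L, hL⟩ : ∃ L, L = (p + 1) * D ^ p * 1 + D ^ (p + 1) * C + D ^ p * C := ⟨_, rfl⟩
    have hL0 : 0 ≤ L := by
      rw [hL]
      positivity
    refine tendsto_integral_of_dominated_convergence
      ((Icc 0 D ×ˢ Icc 0 θ₀).indicator fun _ => L) ?_ ?_ ?_ ?_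
    · intro n
      have m1 : Measurable (cv (φ n) F1) := (contDiff_cv _ hF1 hb1).continuous.measurable
      have m2 : Measurable (cv (φ n) G1) := (contDiff_cv _ hG1 hC1).continuous.measurable
      have m3 : Measurable (cv (φ n) G2) := (contDiff_cv _ hG2 hC2).continuous.measurable
      apply Measurable.aestronglyMeasurable
      exact (((measurable_const.mul (measurable_fst.pow_const p)).mul m1).add
        ((measurable_fst.pow_const (p + 1)).mul m2)).add ((measurable_fst.pow_const p).mul m3)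
    · apply Integrable.integrableOn
      rw [integrable_indicator_iff (measurableSet_Icc.prod measurableSet_Icc)]
      exact integrableOn_const (isCompact_Icc.prod isCompact_Icc).measure_lt_top.ne
    · intro n
      refine ae_of_all _ fun x => ?_
      by_cases hx : x ∈ K n
      · have hx' := hx
        obtain ⟨⟨h1, h2⟩, h3, h4⟩ := hx'
        have h5 := hφm n
        have h6 : 0 < x.1 := (hKs n hx).1
        have h7 : x.1 ≤ D := by
          rw [hD]
          linarith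
        rw [indicator_of_mem (show x ∈ Icc 0 D ×ˢ Icc 0 θ₀ from
          ⟨⟨h6.le, h7⟩, by linarith, by linarith⟩)]
        have h8 : x.1 ^ p ≤ D ^ p := Real.rpow_le_rpow h6.le h7 hp.le
        have h9 : x.1 ^ (p + 1) ≤ D ^ (p + 1) := Real.rpow_le_rpow h6.le h7 (by linarith)
        have h10 : 0 ≤ x.1 ^ p := Real.rpow_nonneg h6.le _
        have h11 : 0 ≤ x.1 ^ (p + 1) := Real.rpow_nonneg h6.le _
        rw [hL]
        refine (norm_add₃_le).trans ?_
        rw [norm_mul ((p + 1) * x.1 ^ p), norm_mul (x.1 ^ (p + 1)), norm_mul (x.1 ^ p),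
          Real.norm_eq_abs (cv (φ n) F1 x),
          Real.norm_eq_abs (cv (φ n) G1 x), Real.norm_eq_abs (cv (φ n) G2 x),
          Real.norm_of_nonneg (by positivity : 0 ≤ (p + 1) * x.1 ^ p), Real.norm_of_nonneg h10,
          Real.norm_of_nonneg h11]
        refine add_le_add (add_le_add ?_ ?_) ?_
        · exact mul_le_mul (mul_le_mul_of_nonneg_left h8 (by linarith)) (abs_cv_le _ hb1 x)
            (abs_nonneg _) (by positivity)
        · exact mul_le_mul h9 (abs_cv_le _ hC1 x) (abs_nonneg _) (by positivity)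
        · exact mul_le_mul h8 (abs_cv_le _ hC2 x) (abs_nonneg _) (by positivity)
      · obtain ⟨h1, h2, h3, h4⟩ := hK1 n x hx
        show ‖(p + 1) * x.1 ^ p * cv (φ n) F1 x + x.1 ^ (p + 1) * cv (φ n) G1 x +
          x.1 ^ p * cv (φ n) G2 x‖ ≤ _
        rw [h1, h3, h4, mul_zero, mul_zero, mul_zero, add_zero, add_zero, norm_zero]
        exact indicator_nonneg (fun _ _ => hL0) x
    · apply ae_restrict_of_ae
      filter_upwards [ContDiffBump.ae_convolution_tendsto_right_of_locallyIntegrable hφt hφK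
          (locInt hF1 hb1),
        ContDiffBump.ae_convolution_tendsto_right_of_locallyIntegrable hφt hφK (locInt hG1 hC1),
        ContDiffBump.ae_convolution_tendsto_right_of_locallyIntegrable hφt hφK (locInt hG2 hC2)]
        with x t1 t2 t3
      exact ((t1.const_mul _).add (t2.const_mul _)).add (t3.const_mul _)
  exact le_of_tendsto' hlim hle

end Pool.R872.SEC
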